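import Pool.Agent.H89.CM4.Targets2b

/-!
# Row B_FML of the board cm4_modules: finitely many lattices contain the multiples of `b`
-/

set_option autoImplicit false

open MeasureTheory Set Filter NumberField NumberField.InfinitePlace Pool.Agent.H65.CM4
open Pool.Agent.H89.CM4
open scoped Real

namespace Pool.Agent.H2.CM4

variable (k : Type) [Field k] [NumberField k] [IsTotallyReal k]

theorem pf_FML : T_FML k := by
  intro b hb
  classical
  set N : La k := LinearMap.range (LinearMap.lsmul (𝓞 k) (V2 k) (b : 𝓞 k)) with hN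
  have hmemN : ∀ u : V2 k, (b : 𝓞 k) • u ∈ N := fun u => ⟨u, rfl⟩
  have hle : ∀ M : La k, Mb b M → N ≤ M := by
    intro M hM x hx
    rw [hN] at hx
    obtain ⟨u, rfl⟩ := hx
    exact hM u
  -- the quotient is finite
  have hfg : Module.Finite ℤ (V2 k ⧸ N) := by
    have h1 : Module.Finite ℤ (V2 k) := inferInstance
    exact Module.Finite.of_surjective ((Submodule.mkQ N).toAddMonoidHom.toIntLinearMap)
      (Submodule.mkQ_surjective N)
  have htor : Module.IsTorsion ℤ (V2 k ⧸ N) := by
    intro x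
    obtain ⟨u, rfl⟩ := Submodule.mkQ_surjective N x
    refine ⟨⟨(b : ℤ), mem_nonZeroDivisors_of_ne_zero (by exact_mod_cast hb.ne')⟩, ?_⟩
    change (b : ℤ) • (Submodule.mkQ N) u = 0
    have h2 : (b : ℤ) • (Submodule.mkQ N) u = (Submodule.mkQ N) ((b : 𝓞 k) • u) := by
      rw [map_smul, natCast_zsmul]
      rw [Nat.cast_smul_eq_nsmul]
    rw [h2, Submodule.mkQ_apply, Submodule.Quotient.mk_eq_zero]
    exact hmemN u
  have hfin : Finite (V2 k ⧸ N) := Module.finite_of_fg_torsion _ htor
  have hfin2 : Finite (Submodule (𝓞 k) (V2 k ⧸ N)) :=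
    Finite.of_injective (fun L : Submodule (𝓞 k) (V2 k ⧸ N) => (L : Set (V2 k ⧸ N)))
      SetLike.coe_injective
  apply Set.Finite.of_finite_image (f := fun M : La k => M.map N.mkQ) (Set.toFinite _)
  intro M hM M' hM' h
  have h1 : (M.map N.mkQ).comap N.mkQ = M := by
    rw [Submodule.comap_map_mkQ]
    exact sup_eq_right.2 (hle M hM)
  have h2 : (M'.map N.mkQ).comap N.mkQ = M' := by
    rw [Submodule.comap_map_mkQ]
    exact sup_eq_right.2 (hle M' hM')
  have h3 : M.map N.mkQ = M'.map N.mkQ := h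
  rw [← h1, h3, h2]

end Pool.Agent.H2.CM4
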