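import Pool.Agent.H23.CM4.Targets

/-!
# Row D_KSM of the board cm4_modules: the smoothed sums
-/

set_option autoImplicit false

open NumberField MeasureTheory Set Filter Complex
open scoped nonZeroDivisors Real

namespace Pool.Agent.H2.CM4

open Pool.Agent.H23.CM4
open Pool.Agent.H31.CN (IsLf)
open Pool.Agent.H61.FM (CC pv Sp)
open Pool.Agent.H65.CM4 (gG Kc Sq nm dg)
open Pool.Agent.H25.HK (FI Pri du)

theorem ksm_norm_Gamma {s : ℂ} (hs : 0 < s.re) : ‖Complex.Gamma s‖ ≤ Real.Gamma s.re := by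
  rw [Complex.Gamma_eq_integral hs, Real.Gamma_eq_integral hs, Complex.GammaIntegral]
  refine (norm_integral_le_integral_norm _).trans (le_of_eq ?_)
  refine setIntegral_congr_fun measurableSet_Ioi fun x hx => ?_
  have hx' : 0 < x := hx
  rw [norm_mul, Complex.norm_cpow_eq_rpow_re_of_pos hx', Complex.norm_real,
    Real.norm_of_nonneg (Real.exp_pos _).le, Complex.sub_re, Complex.one_re]

/-- the size of the Gamma factor on the line `Re = 2` -/
theorem ksm_gG (t : ℝ) : ‖gG (2 + t * I)‖ ≤ (2 + |t|) ^ 2 := by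
  have hre : (2 + (t : ℂ) * I).re = 2 := by simp
  have hw1 : ‖(2 : ℂ) + t * I‖ ≤ 2 + |t| := by
    refine (norm_add_le _ _).trans ?_
    rw [norm_mul, Complex.norm_I, mul_one, Complex.norm_real, Real.norm_eq_abs]
    norm_num
  have hw2 : ‖(2 : ℂ) + t * I - 1‖ ≤ 2 + |t| := by
    have : (2 : ℂ) + t * I - 1 = 1 + t * I := by ring
    rw [this]
    refine (norm_add_le _ _).trans ?_
    rw [norm_mul, Complex.norm_I, mul_one, Complex.norm_real, Real.norm_eq_abs, norm_one]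
    linarith
  have hG : ‖Complex.Gamma (2 + t * I)‖ ≤ 1 := by
    have := ksm_norm_Gamma (s := 2 + t * I) (by rw [hre]; norm_num)
    rw [hre] at this
    rw [Real.Gamma_two] at this
    exact this
  have hp : ‖(2 * (π : ℂ)) ^ (-(2 + (t : ℂ) * I))‖ ≤ 1 := by
    have h1 : (2 * (π : ℂ)) = ((2 * π : ℝ) : ℂ) := by push_cast; ring
    rw [h1, Complex.norm_cpow_eq_rpow_re_of_pos (by positivity)]
    have h2 : (-(2 + (t : ℂ) * I)).re = -2 := by simp
    rw [h2]
    apply Real.rpow_le_one_of_one_le_of_nonpos _ (by norm_num)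
    nlinarith [Real.pi_gt_three]
  unfold gG
  rw [norm_mul, norm_mul, norm_mul]
  have ht : 0 ≤ 2 + |t| := by positivity
  calc ‖(2 : ℂ) + t * I‖ * ‖(2 : ℂ) + t * I - 1‖ * ‖Complex.Gamma (2 + t * I)‖ *
        ‖(2 * (π : ℂ)) ^ (-(2 + (t : ℂ) * I))‖
      ≤ (2 + |t|) * (2 + |t|) * 1 * 1 := by
        gcongr
    _ = (2 + |t|) ^ 2 := by ring

theorem ksm_cpow (x D : ℝ) (hx : 0 < x) (hD : 0 < D) (w : ℂ) :
    ((x / Real.sqrt D : ℝ) : ℂ) ^ (-w) = (x : ℂ) ^ (-w) * (D : ℂ) ^ (w / 2) := by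
  have hs : 0 < Real.sqrt D := Real.sqrt_pos.2 hD
  have hq : 0 < x / Real.sqrt D := div_pos hx hs
  rw [Complex.cpow_def_of_ne_zero (by exact_mod_cast hq.ne'),
    Complex.cpow_def_of_ne_zero (by exact_mod_cast hx.ne'),
    Complex.cpow_def_of_ne_zero (by exact_mod_cast hD.ne'),
    ← Complex.exp_add, ← Complex.ofReal_log hq.le, ← Complex.ofReal_log hx.le,
    ← Complex.ofReal_log hD.le, Real.log_div hx.ne' hs.ne', Real.log_sqrt hD.le]
  congr 1
  push_cast
  ring

theorem pf_KSM (hGGE : T_GGE) (hDSM : T_DSM) : T_KSM := by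
  intro n K _ _ hK c s hc hs0 hs1
  obtain ⟨-, hn1, hsum⟩ := hDSM K
  have hD : 0 < dK K := by
    unfold dK
    rw [abs_pos]
    exact_mod_cast NumberField.discr_ne_zero K
  have hsum2 : Summable (fun J : (Ideal (𝓞 K))⁰ => nJ J ^ (-(2 : ℝ))) := hsum 2 (by norm_num)
  have hnpos : ∀ J : (Ideal (𝓞 K))⁰, 0 < nJ J := fun J => lt_of_lt_of_le one_pos (hn1 J)
  -- the ideals are countable
  have hcount : Countable (Ideal (𝓞 K))⁰ := by
    have h1 := hsum2.countable_support
    have h2 : Function.support (fun J : (Ideal (𝓞 K))⁰ => nJ J ^ (-(2 : ℝ))) = Set.univ := by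
      ext J
      simp only [Function.mem_support, Set.mem_univ, iff_true]
      exact (Real.rpow_pos_of_pos (hnpos J) _).ne'
    rw [h2] at h1
    exact Set.countable_univ_iff.1 h1
  set g0 : ℝ → ℂ := fun t => gG (2 + t * I) ^ n * (dK K : ℂ) ^ ((2 + (t : ℂ) * I) / 2) *
    (cexp ((2 + t * I - s) ^ 2) / (2 + t * I - s)) with hg0
  have hne : ∀ t : ℝ, (2 + (t : ℂ) * I - s) ≠ 0 := by
    intro t h
    have := congrArg Complex.re h
    simp at this
    linarith
  have hcont0 : Continuous g0 := by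
    rw [continuous_iff_continuousAt]
    intro t
    have hl : ContinuousAt (fun t : ℝ => (2 : ℂ) + (t : ℂ) * I) t := by fun_prop
    have h1 : ContinuousAt (fun t : ℝ => gG (2 + (t : ℂ) * I)) t := by
      have h2 := ((hGGE.1 (2 + (t : ℂ) * I) (by simp)).1).continuousAt
      exact ContinuousAt.comp (f := fun t : ℝ => (2 : ℂ) + (t : ℂ) * I) h2 hl
    have h3 : ContinuousAt (fun t : ℝ => (dK K : ℂ) ^ ((2 + (t : ℂ) * I) / 2)) t := by
      apply ContinuousAt.const_cpow (hl.div_const 2)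
      left
      exact_mod_cast hD.ne'
    have h4 : ContinuousAt (fun t : ℝ => cexp ((2 + (t : ℂ) * I - s) ^ 2) /
        (2 + (t : ℂ) * I - s)) t := by
      have h5 : ContinuousAt (fun t : ℝ => cexp ((2 + (t : ℂ) * I - s) ^ 2)) t :=
        ((hl.sub continuousAt_const).pow 2).cexp
      have h6 : ContinuousAt (fun t : ℝ => (2 : ℂ) + (t : ℂ) * I - s) t :=
        hl.sub continuousAt_const
      exact h5.div h6 (hne t)
    exact ((h1.pow n).mul h3).mul h4
  -- the bound of the integrand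
  set C0 : ℝ := dK K * ((2 * n).factorial * Real.exp 2) *
    (Real.exp ((2 - s.re) ^ 2) / (2 - s.re)) * Real.exp (1 + s.im ^ 2) with hC0
  have hσ : 0 < 2 - s.re := by linarith
  have hbound : ∀ t : ℝ, ‖g0 t‖ ≤ C0 * Real.exp (-(1 / 4) * t ^ 2) := by
    intro t
    have hA : ‖gG (2 + (t : ℂ) * I) ^ n‖ ≤ (2 * n).factorial * Real.exp 2 * Real.exp |t| := by
      rw [norm_pow]
      have h1 : ‖gG (2 + (t : ℂ) * I)‖ ^ n ≤ ((2 + |t|) ^ 2) ^ n :=
        pow_le_pow_left₀ (norm_nonneg _) (ksm_gG t) n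
      have h2 : (2 + |t|) ^ (2 * n) / ((2 * n).factorial : ℝ) ≤ Real.exp (2 + |t|) :=
        Real.pow_div_factorial_le_exp _ (by positivity) _
      rw [div_le_iff₀ (by positivity), Real.exp_add] at h2
      calc ‖gG (2 + (t : ℂ) * I)‖ ^ n ≤ (2 + |t|) ^ (2 * n) := by rw [pow_mul]; exact h1
        _ ≤ Real.exp 2 * Real.exp |t| * ((2 * n).factorial : ℝ) := h2
        _ = _ := by ring
    have hB : ‖(dK K : ℂ) ^ ((2 + (t : ℂ) * I) / 2)‖ = dK K := by
      rw [Complex.norm_cpow_eq_rpow_re_of_pos hD]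
      have : ((2 + (t : ℂ) * I) / 2).re = 1 := by simp
      rw [this, Real.rpow_one]
    have hCd : ‖cexp ((2 + (t : ℂ) * I - s) ^ 2) / (2 + (t : ℂ) * I - s)‖ ≤
        Real.exp ((2 - s.re) ^ 2) / (2 - s.re) * Real.exp (-(t - s.im) ^ 2) := by
      rw [norm_div, Complex.norm_exp]
      have h1 : ((2 + (t : ℂ) * I - s) ^ 2).re = (2 - s.re) ^ 2 - (t - s.im) ^ 2 := by
        rw [pow_two, Complex.mul_re]
        simp
        ring
      have h2 : 2 - s.re ≤ ‖2 + (t : ℂ) * I - s‖ := by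
        have h3 := Complex.re_le_norm (2 + (t : ℂ) * I - s)
        simpa using h3
      rw [h1]
      calc Real.exp ((2 - s.re) ^ 2 - (t - s.im) ^ 2) / ‖2 + (t : ℂ) * I - s‖
          ≤ Real.exp ((2 - s.re) ^ 2 - (t - s.im) ^ 2) / (2 - s.re) :=
            div_le_div_of_nonneg_left (Real.exp_pos _).le hσ h2
        _ = _ := by
            rw [sub_eq_add_neg ((2 - s.re) ^ 2), Real.exp_add]
            ring
    have hE : Real.exp |t| * Real.exp (-(t - s.im) ^ 2) ≤
        Real.exp (1 + s.im ^ 2) * Real.exp (-(1 / 4) * t ^ 2) := by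
      rw [← Real.exp_add, ← Real.exp_add]
      apply Real.exp_le_exp.2
      have h1 : |t| ^ 2 = t ^ 2 := sq_abs t
      nlinarith [sq_nonneg (|t| - 2), sq_nonneg (t - 2 * s.im)]
    rw [hg0]
    simp only []
    rw [norm_mul, norm_mul, hB]
    calc ‖gG (2 + (t : ℂ) * I) ^ n‖ * dK K *
          ‖cexp ((2 + (t : ℂ) * I - s) ^ 2) / (2 + (t : ℂ) * I - s)‖
        ≤ ((2 * n).factorial * Real.exp 2 * Real.exp |t|) * dK K *
          (Real.exp ((2 - s.re) ^ 2) / (2 - s.re) * Real.exp (-(t - s.im) ^ 2)) := by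
          gcongr
      _ = dK K * ((2 * n).factorial * Real.exp 2) * (Real.exp ((2 - s.re) ^ 2) / (2 - s.re)) *
          (Real.exp |t| * Real.exp (-(t - s.im) ^ 2)) := by ring
      _ ≤ dK K * ((2 * n).factorial * Real.exp 2) * (Real.exp ((2 - s.re) ^ 2) / (2 - s.re)) *
          (Real.exp (1 + s.im ^ 2) * Real.exp (-(1 / 4) * t ^ 2)) := by
          gcongr
      _ = C0 * Real.exp (-(1 / 4) * t ^ 2) := by rw [hC0]; ring
  have hgauss : Integrable (fun t : ℝ => C0 * Real.exp (-(1 / 4) * t ^ 2)) :=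
    (integrable_exp_neg_mul_sq (by norm_num : (0 : ℝ) < 1 / 4)).const_mul C0
  have hint0 : Integrable g0 :=
    hgauss.mono' hcont0.aestronglyMeasurable (Filter.Eventually.of_forall hbound)
  -- the terms
  set F : (Ideal (𝓞 K))⁰ → ℝ → ℂ := fun J t =>
    (c J * (nJ J : ℂ) ^ (-(2 + (t : ℂ) * I))) * g0 t with hF
  have hnormc : ∀ (J : (Ideal (𝓞 K))⁰) (t : ℝ),
      ‖c J * (nJ J : ℂ) ^ (-(2 + (t : ℂ) * I))‖ ≤ nJ J ^ (-(2 : ℝ)) := by
    intro J t
    rw [norm_mul, Complex.norm_cpow_eq_rpow_re_of_pos (hnpos J)]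
    have : (-(2 + (t : ℂ) * I)).re = -2 := by simp
    rw [this]
    exact mul_le_of_le_one_left (Real.rpow_nonneg (hnpos J).le _) (hc J)
  have hcontc : ∀ J : (Ideal (𝓞 K))⁰,
      Continuous (fun t : ℝ => c J * (nJ J : ℂ) ^ (-(2 + (t : ℂ) * I))) := by
    intro J
    apply continuous_const.mul
    apply Continuous.const_cpow (by fun_prop)
    left
    exact_mod_cast (hnpos J).ne'
  have hFle : ∀ (J : (Ideal (𝓞 K))⁰) (t : ℝ), ‖F J t‖ ≤ nJ J ^ (-(2 : ℝ)) * ‖g0 t‖ := by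
    intro J t
    rw [hF]
    simp only []
    rw [norm_mul]
    exact mul_le_mul_of_nonneg_right (hnormc J t) (norm_nonneg _)
  have hFint : ∀ J, Integrable (F J) := by
    intro J
    exact (hint0.norm.const_mul (nJ J ^ (-(2 : ℝ)))).mono'
      ((hcontc J).mul hcont0).aestronglyMeasurable (Filter.Eventually.of_forall (hFle J))
  have hFsum : Summable (fun J => ∫ t, ‖F J t‖) := by
    refine Summable.of_nonneg_of_le (fun J => integral_nonneg fun t => norm_nonneg _)
      (fun J => ?_) (hsum2.mul_right (∫ t, ‖g0 t‖))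
    rw [← integral_const_mul]
    exact integral_mono (hFint J).norm (hint0.norm.const_mul _) (hFle J)
  have hmain := hasSum_integral_of_summable_integral_norm hFint hFsum
  have hmain2 := hmain.mul_left (((1 / (2 * π) : ℝ) : ℂ))
  have hterm : ∀ J : (Ideal (𝓞 K))⁰, ((1 / (2 * π) : ℝ) : ℂ) * ∫ t, F J t =
      c J * Kc n s ((nJ J / Real.sqrt (dK K) : ℝ) : ℂ) := by
    intro J
    unfold Kc
    have h1 : ∫ t, F J t = c J * ∫ t : ℝ, gG (2 + t * I) ^ n *
        (cexp ((2 + t * I - s) ^ 2) / (2 + t * I - s)) *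
        ((nJ J / Real.sqrt (dK K) : ℝ) : ℂ) ^ (-(2 + t * I)) := by
      rw [← integral_const_mul (c J)]
      apply integral_congr_ae
      refine Filter.Eventually.of_forall fun t => ?_
      simp only [hF, hg0]
      rw [ksm_cpow _ _ (hnpos J) hD]
      ring
    rw [h1]
    ring
  have htot : (∫ t, ∑' J, F J t) = ∫ t : ℝ, (gG (2 + t * I) ^ n *
        (dK K : ℂ) ^ ((2 + t * I) / 2) * ∑' J : (Ideal (𝓞 K))⁰, c J * (nJ J : ℂ) ^ (-(2 + t * I))) *
        (cexp ((2 + t * I - s) ^ 2) / (2 + t * I - s)) := by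
    apply integral_congr_ae
    refine Filter.Eventually.of_forall fun t => ?_
    simp only [hF]
    rw [tsum_mul_right, hg0]
    ring
  rw [htot] at hmain2
  have he : (fun J : (Ideal (𝓞 K))⁰ => c J * Kc n s ((nJ J / Real.sqrt (dK K) : ℝ) : ℂ)) =
      fun J => ((1 / (2 * π) : ℝ) : ℂ) * ∫ t, F J t := funext fun J => (hterm J).symm
  rw [he]
  exact hmain2

end Pool.Agent.H2.CM4
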