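import Pool.Agent.H89.CM4.Targets2b

/-!
# Row B_TM of the board cm4_modules: the twisted second moment over the reduced forms
-/

set_option autoImplicit false

open MeasureTheory Set Filter NumberField NumberField.InfinitePlace Pool.Agent.H65.CM4
open Pool.Agent.H89.CM4
open scoped Real

namespace Pool.Agent.H2.CM4

/-- the dyadic size of a reduced form -/
theorem tm_dyadic (k : Type) [Field k] [NumberField k] [IsTotallyReal k] (hE : T_EMB k)
    (b : ℕ) (B y : ℝ) (M : La k) (Q : QF k) (hB : 1 ≤ B) (hy : 1 ≤ y) (hR : Rd b B y M Q) :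
    ∃ i : ℕ, i < ⌊Real.logb 2 (B * y)⌋₊ + 1 ∧ (1 : ℝ) ≤ 2 ^ i ∧ (2 : ℝ) ^ i ≤ 2 * B ^ 2 * y ∧
      ∀ v : Pl k, y / (2 * B ^ 2 * 2 ^ i) ≤ rv v (Q.1 : k) ∧
        rv v (Q.1 : k) ≤ 2 * B ^ 2 * y / 2 ^ i ∧
        |rv v (Q.2.1 : k)| ≤ 2 * B ^ 2 * rv v (Q.1 : k) ∧ y ^ 2 / (2 * B ^ 2) ≤ rv v (dsc Q : k) ∧
        rv v (dsc Q : k) ≤ 2 * B ^ 2 * y ^ 2 := by
  obtain ⟨hcard, hdg, -, -, -, -, -, -, -, hone, -, -⟩ := hE
  obtain ⟨h, h0, hhB, ha⟩ := hR.bal
  have hB0 : 0 < B := lt_of_lt_of_le one_pos hB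
  have hy0 : 0 < y := lt_of_lt_of_le one_pos hy
  have hapos : ∀ v : Pl k, 0 < rv v (Q.1 : k) := fun v =>
    lt_of_lt_of_le (div_pos h0 hB0) (ha v).1
  have hcp : 0 < Fintype.card (Pl k) := by rw [hcard]; exact hdg
  obtain ⟨v0⟩ : Nonempty (Pl k) := Fintype.card_pos_iff.1 hcp
  have hne : Q.1 ≠ 0 := by
    intro h1
    have := hapos v0
    rw [h1] at this
    simp at this
  have hnr : 1 ≤ Nr ((Q.1 : 𝓞 k) : k) := hone Q.1 hne
  have hBh : 1 ≤ B * h := by
    by_contra hlt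
    push Not at hlt
    have hle : Nr ((Q.1 : 𝓞 k) : k) ≤ ∏ _v : Pl k, (B * h) := by
      unfold Nr
      apply Finset.prod_le_prod
      · intro v _; exact abs_nonneg _
      · intro v _
        rw [abs_of_pos (hapos v)]
        exact (ha v).2
    rw [Finset.prod_const, Finset.card_univ] at hle
    have hlt1 : (B * h) ^ Fintype.card (Pl k) < 1 :=
      pow_lt_one₀ (by positivity) hlt (by omega)
    linarith
  set X : ℝ := max 1 (y / h) with hX
  have hX1 : 1 ≤ X := le_max_left _ _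
  have hX0 : 0 < X := lt_of_lt_of_le one_pos hX1
  have hXy : y / h ≤ X := le_max_right _ _
  have hyX : y ≤ X * h := by
    rw [div_le_iff₀ h0] at hXy
    exact hXy
  have hXB : X ≤ B * y := by
    apply max_le
    · calc (1 : ℝ) = 1 * 1 := by ring
        _ ≤ B * y := mul_le_mul hB hy zero_le_one hB0.le
    · rw [div_le_iff₀ h0]
      calc y = 1 * y := by ring
        _ ≤ (B * h) * y := mul_le_mul_of_nonneg_right hBh hy0.le
        _ = B * y * h := by ring
  have hhX : X * h ≤ B * y := by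
    rcases le_total 1 (y / h) with hc | hc
    · have : X = y / h := max_eq_right hc
      rw [this, div_mul_cancel₀ _ h0.ne']
      calc y = 1 * y := by ring
        _ ≤ B * y := mul_le_mul_of_nonneg_right hB hy0.le
    · have : X = 1 := max_eq_left hc
      rw [this, one_mul]
      exact hhB
  have hBB : B ≤ B ^ 2 := by nlinarith
  have hlog0 : 0 ≤ Real.logb 2 X := Real.logb_nonneg one_lt_two hX1
  refine ⟨⌊Real.logb 2 X⌋₊, ?_, ?_, ?_, ?_⟩
  · have : ⌊Real.logb 2 X⌋₊ ≤ ⌊Real.logb 2 (B * y)⌋₊ :=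
      Nat.floor_mono (Real.logb_le_logb_of_le one_lt_two hX0 hXB)
    omega
  · exact one_le_pow₀ one_le_two
  · have h1 : (2 : ℝ) ^ ⌊Real.logb 2 X⌋₊ ≤ X := by
      rw [← Real.rpow_natCast, ← Real.le_logb_iff_rpow_le one_lt_two hX0]
      exact Nat.floor_le hlog0
    have h2 : B * y ≤ 2 * B ^ 2 * y := by
      apply mul_le_mul_of_nonneg_right _ hy0.le
      nlinarith
    linarith
  · intro v
    have h1 : (2 : ℝ) ^ ⌊Real.logb 2 X⌋₊ ≤ X := by
      rw [← Real.rpow_natCast, ← Real.le_logb_iff_rpow_le one_lt_two hX0]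
      exact Nat.floor_le hlog0
    have h2 : X < 2 * (2 : ℝ) ^ ⌊Real.logb 2 X⌋₊ := by
      have h3 : Real.logb 2 X < (⌊Real.logb 2 X⌋₊ : ℝ) + 1 := Nat.lt_floor_add_one _
      have h4 : X < (2 : ℝ) ^ ((⌊Real.logb 2 X⌋₊ : ℝ) + 1) := by
        rw [← Real.logb_lt_iff_lt_rpow one_lt_two hX0]
        exact h3
      have h5 : (2 : ℝ) ^ ((⌊Real.logb 2 X⌋₊ : ℝ) + 1) = 2 * (2 : ℝ) ^ ⌊Real.logb 2 X⌋₊ := by
        rw [Real.rpow_add two_pos, Real.rpow_natCast, Real.rpow_one]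
        ring
      rw [h5] at h4
      exact h4
    set r : ℝ := (2 : ℝ) ^ ⌊Real.logb 2 X⌋₊ with hr
    have hr0 : 0 < r := by positivity
    obtain ⟨ha1, ha2⟩ := ha v
    have hav := hapos v
    obtain ⟨hd1, hd2⟩ := hR.d v
    have hb := hR.b v
    have hB2 : B ≤ 2 * B ^ 2 := by nlinarith
    refine ⟨?_, ?_, ?_, ?_, ?_⟩
    · refine le_trans ?_ ha1
      rw [div_le_div_iff₀ (by positivity) hB0]
      have h6 : X * h ≤ 2 * r * h := mul_le_mul_of_nonneg_right h2.le h0.le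
      calc y * B ≤ (2 * r * h) * B := mul_le_mul_of_nonneg_right (hyX.trans h6) hB0.le
        _ = (2 * B * r) * h := by ring
        _ ≤ (2 * B ^ 2 * r) * h := by
            apply mul_le_mul_of_nonneg_right _ h0.le
            apply mul_le_mul_of_nonneg_right _ hr0.le
            nlinarith
        _ = h * (2 * B ^ 2 * r) := by ring
    · refine le_trans ha2 ?_
      rw [le_div_iff₀ hr0]
      calc B * h * r ≤ B * h * X := mul_le_mul_of_nonneg_left h1 (by positivity)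
        _ = B * (X * h) := by ring
        _ ≤ B * (B * y) := mul_le_mul_of_nonneg_left hhX hB0.le
        _ ≤ 2 * B ^ 2 * y := by nlinarith [mul_pos (pow_pos hB0 2) hy0]
    · exact hb.trans (mul_le_mul_of_nonneg_right hB2 hav.le)
    · refine le_trans ?_ hd1
      exact div_le_div_of_nonneg_left (by positivity) hB0 hB2
    · exact hd2.trans (mul_le_mul_of_nonneg_right hB2 (by positivity))

theorem pf_TM
    (hRDB : ∀ (k : Type) [Field k] [NumberField k] [IsTotallyReal k], T_RDB k)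
    (hFML : ∀ (k : Type) [Field k] [NumberField k] [IsTotallyReal k], T_FML k)
    (hCHX : ∀ (k : Type) [Field k] [NumberField k] [IsTotallyReal k], T_CHX k)
    (hEMB : ∀ (k : Type) [Field k] [NumberField k] [IsTotallyReal k], T_EMB k) : T_TM := by
  intro k _ _ _
  classical
  obtain ⟨R⟩ := hCHX k
  have hE := hEMB k
  have hdg : 0 < dg k := hE.2.1
  have hdk : 0 < dk k := hE.2.2.1
  refine ⟨dk k * R.C0.factorial, Nat.mul_pos hdk (Nat.factorial_pos _), ?_⟩
  intro b B hb hbd hB ε hε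
  have hB0 : 0 < B := lt_of_lt_of_le one_pos hB
  have hB1 : 1 ≤ 2 * B ^ 2 := by nlinarith
  obtain ⟨κ, hκ, hκ', δ, hδ, -, C, j, hC, hmain⟩ :=
    hRDB k R b (2 * B ^ 2) ⟨hb, hbd⟩ hB1 (ε / 2) (by positivity)
  have hFin := hFML k b hb
  set FM : Finset (La k) := hFin.toFinset with hFM
  set n : ℝ := (dg k : ℝ) with hn
  have hn0 : 0 < n := by rw [hn]; exact_mod_cast hdg
  set η : ℝ := n * (ε / 2) with hη
  have hη0 : 0 < η := by positivity
  have hlog2 : 0 < Real.log 2 := Real.log_pos one_lt_two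
  set C1 : ℝ := 1 + Real.log B / Real.log 2 + 1 / (η * Real.log 2) with hC1
  have hC10 : 0 ≤ C1 := by
    have : 0 ≤ Real.log B := Real.log_nonneg hB
    positivity
  refine ⟨κ, hκ, by linarith, δ, hδ, (FM.card : ℝ) * C1 * C, 2 * j, by positivity, ?_⟩
  intro s y A α S hs hy hA hAy hα hS
  have hy0 : 0 < y := lt_of_lt_of_le one_pos hy
  set N : ℕ := ⌊Real.logb 2 (B * y)⌋₊ + 1 with hN
  have hchoice : ∀ p ∈ S, ∃ i : ℕ, i < N ∧ (1 : ℝ) ≤ 2 ^ i ∧ (2 : ℝ) ^ i ≤ 2 * B ^ 2 * y ∧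
      ∀ v : Pl k, y / (2 * B ^ 2 * 2 ^ i) ≤ rv v (p.2.1 : k) ∧
        rv v (p.2.1 : k) ≤ 2 * B ^ 2 * y / 2 ^ i ∧
        |rv v (p.2.2.1 : k)| ≤ 2 * B ^ 2 * rv v (p.2.1 : k) ∧
        y ^ 2 / (2 * B ^ 2) ≤ rv v (dsc p.2 : k) ∧
        rv v (dsc p.2 : k) ≤ 2 * B ^ 2 * y ^ 2 := fun p hp =>
    tm_dyadic k hE b B y p.1 p.2 hB hy (hS p hp)
  choose! ι hι using hchoice
  set T : ℝ := C * ht k j s.im ^ 2 * y ^ (n * (3 + ε / 2)) * A with hT
  have hht : 0 ≤ ht k j s.im ^ 2 := sq_nonneg _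
  have hT0 : 0 ≤ T := by
    have : 0 ≤ y ^ (n * (3 + ε / 2)) := Real.rpow_nonneg hy0.le _
    have hA0 : 0 ≤ A := by linarith
    positivity
  -- the number of the exponents
  have hNle : (N : ℝ) ≤ C1 * y ^ η := by
    have hBy : 1 ≤ B * y := by nlinarith
    have h1 : ((⌊Real.logb 2 (B * y)⌋₊ : ℕ) : ℝ) ≤ Real.logb 2 (B * y) :=
      Nat.floor_le (Real.logb_nonneg one_lt_two hBy)
    have h2 : Real.logb 2 (B * y) = Real.log B / Real.log 2 + Real.log y / Real.log 2 := by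
      rw [Real.logb, Real.log_mul hB0.ne' hy0.ne', add_div]
    have h3 : Real.log y ≤ y ^ η / η := Real.log_le_rpow_div hy0.le hη0
    have h4 : 1 ≤ y ^ η := Real.one_le_rpow hy hη0.le
    have hlB : 0 ≤ Real.log B / Real.log 2 := div_nonneg (Real.log_nonneg hB) hlog2.le
    have h5 : Real.log y / Real.log 2 ≤ 1 / (η * Real.log 2) * y ^ η := by
      rw [div_le_iff₀ hlog2]
      have : 1 / (η * Real.log 2) * y ^ η * Real.log 2 = y ^ η / η := by
        field_simp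
      rw [this]
      exact h3
    have h6 : (N : ℝ) = (⌊Real.logb 2 (B * y)⌋₊ : ℝ) + 1 := by
      rw [hN]; push_cast; ring
    rw [h6, hC1]
    have h7 : Real.log B / Real.log 2 ≤ Real.log B / Real.log 2 * y ^ η :=
      le_mul_of_one_le_right hlB h4
    calc (⌊Real.logb 2 (B * y)⌋₊ : ℝ) + 1
        ≤ Real.log B / Real.log 2 + Real.log y / Real.log 2 + 1 := by linarith
      _ ≤ Real.log B / Real.log 2 * y ^ η + 1 / (η * Real.log 2) * y ^ η + y ^ η := by linarith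
      _ = (1 + Real.log B / Real.log 2 + 1 / (η * Real.log 2)) * y ^ η := by ring
  -- grouping
  have hmaps : ∀ p ∈ S, (fun p : La k × QF k => (p.1, ι p)) p ∈ FM ×ˢ Finset.range N := by
    intro p hp
    rw [Finset.mem_product]
    refine ⟨?_, ?_⟩
    · rw [hFM, Set.Finite.mem_toFinset]
      exact (hS p hp).mem
    · exact Finset.mem_range.2 (hι p hp).1
  have hfib : ∀ q ∈ FM ×ˢ Finset.range N,
      ∑ p ∈ S with (fun p : La k × QF k => (p.1, ι p)) p = q, ‖Bf s α b A p.1 p.2‖ ^ 2 ≤ T := by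
    rintro ⟨M, i⟩ hq
    rw [Finset.mem_product] at hq
    obtain ⟨hM, hi⟩ := hq
    have hMb : Mb b M := by
      have : M ∈ FM := hM
      rw [hFM, Set.Finite.mem_toFinset] at this
      exact this
    rcases (S.filter (fun p => (fun p : La k × QF k => (p.1, ι p)) p = (M, i))).eq_empty_or_nonempty
      with he | hne
    · rw [he, Finset.sum_empty]
      exact hT0
    obtain ⟨p0, hp0⟩ := hne
    rw [Finset.mem_filter] at hp0
    have hi0 : ι p0 = i := (Prod.ext_iff.1 hp0.2).2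
    have hr := hι p0 hp0.1
    rw [hi0] at hr
    have hinj : ∀ p ∈ S.filter (fun p => (fun p : La k × QF k => (p.1, ι p)) p = (M, i)),
        ∀ p' ∈ S.filter (fun p => (fun p : La k × QF k => (p.1, ι p)) p = (M, i)),
        Prod.snd p = Prod.snd p' → p = p' := by
      intro p hp p' hp' hpp
      rw [Finset.mem_filter] at hp hp'
      have h1 : p.1 = M := (Prod.ext_iff.1 hp.2).1
      have h2 : p'.1 = M := (Prod.ext_iff.1 hp'.2).1
      exact Prod.ext (h1.trans h2.symm) hpp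
    have hrew : ∑ p ∈ S with (fun p : La k × QF k => (p.1, ι p)) p = (M, i),
        ‖Bf s α b A p.1 p.2‖ ^ 2 =
        ∑ Q ∈ (S.filter (fun p => (fun p : La k × QF k => (p.1, ι p)) p = (M, i))).image Prod.snd,
          ‖Bf s α b A M Q‖ ^ 2 := by
      rw [Finset.sum_image hinj]
      apply Finset.sum_congr rfl
      intro p hp
      rw [Finset.mem_filter] at hp
      have h1 : p.1 = M := (Prod.ext_iff.1 hp.2).1
      rw [h1]
    rw [hrew, hT]
    apply hmain s y (2 ^ i) A α M _ hs hy hr.2.1 hr.2.2.1 hA hAy hα hMb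
    intro Q hQ v
    rw [Finset.mem_image] at hQ
    obtain ⟨p, hp, rfl⟩ := hQ
    rw [Finset.mem_filter] at hp
    have hip : ι p = i := (Prod.ext_iff.1 hp.2).2
    have := (hι p hp.1).2.2.2 v
    rw [hip] at this
    exact this
  have hsum : ∑ p ∈ S, ‖Bf s α b A p.1 p.2‖ ^ 2 ≤ (FM.card : ℝ) * N * T := by
    rw [← Finset.sum_fiberwise_of_maps_to hmaps]
    calc ∑ q ∈ FM ×ˢ Finset.range N,
          ∑ p ∈ S with (fun p : La k × QF k => (p.1, ι p)) p = q, ‖Bf s α b A p.1 p.2‖ ^ 2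
        ≤ ∑ _q ∈ FM ×ˢ Finset.range N, T := Finset.sum_le_sum hfib
      _ = (FM.card : ℝ) * N * T := by
        rw [Finset.sum_const, Finset.card_product, Finset.card_range, nsmul_eq_mul]
        push_cast
        ring
  have hhteq : ht k j s.im ^ 2 = (1 + |s.im|) ^ (2 * j) * Real.exp (-(π * dg k * |s.im|)) := by
    unfold ht
    rw [mul_pow, ← pow_mul, ← Real.exp_nat_mul, Nat.mul_comm]
    congr 2
    push_cast
    ring
  have hyexp : y ^ η * y ^ (n * (3 + ε / 2)) = y ^ (n * (3 + ε)) := by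
    rw [← Real.rpow_add hy0]
    congr 1
    rw [hη]; ring
  calc ∑ p ∈ S, ‖Bf s α b A p.1 p.2‖ ^ 2 ≤ (FM.card : ℝ) * N * T := hsum
    _ ≤ (FM.card : ℝ) * (C1 * y ^ η) * T := by
        apply mul_le_mul_of_nonneg_right _ hT0
        exact mul_le_mul_of_nonneg_left hNle (Nat.cast_nonneg _)
    _ = (FM.card : ℝ) * C1 * C * (1 + |s.im|) ^ (2 * j) * Real.exp (-(π * dg k * |s.im|)) *
          (y ^ η * y ^ (n * (3 + ε / 2))) * A := by
        rw [hT, hhteq]; ring
    _ = (FM.card : ℝ) * C1 * C * (1 + |s.im|) ^ (2 * j) * Real.exp (-(π * dg k * |s.im|)) *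
          y ^ (dg k * (3 + ε)) * A := by
        rw [hyexp]

end Pool.Agent.H2.CM4
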